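import Mathlib
import Pool.Agent.H577R3.Key4
import Pool.Agent.H577R3.Prod2

/-!
# Free solvable groups of all classes and bi-interpretability with arithmetic

For every `n ≥ 2` the free solvable group `S_{n,d} = F_n / F_n^{(d)}` of class `d` and rank `n` is
bi-interpretable (with parameters) with the standard model of arithmetic if and only if `d ≥ 2`.
Moreover, for `d ≥ 2`, a single first-order formula defines the free bases of `S_{n,d}` in all
finitely generated groups.

`Bi.BiInterpNat G`: the group `G`, as a structure in the language of groups, is bi-interpretable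
with parameters with `(ℕ; +, ·, 0, 1)`; see `Pool/Agent/H577R3/Bi.lean`.
-/

set_option autoImplicit false

namespace Pool.Agent.Results.MP_9cc2ee_lc.AllClasses

open Pool.Agent.H577R3 FirstOrder FirstOrder.Language

/-- The free solvable group `F_n / F_n^{(d)}` of rank `n` and class `d`. -/
abbrev S (n d : ℕ) : Type := FreeGroup (Fin n) ⧸ derivedSeries (FreeGroup (Fin n)) d

/-- The image in `S n d` of the `i`-th free generator. -/
def gen (n d : ℕ) (i : Fin n) : S n d := QuotientGroup.mk (FreeGroup.of i)

/-- The language of groups with the multiplication only: one function symbol, which is binary. -/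
abbrev LMul : FirstOrder.Language.{0, 0} := ⟨fun k => if k = 2 then Unit else Empty, fun _ => Empty⟩

/-- A group as a structure with the multiplication as its only operation. -/
@[reducible] def mulStr (G : Type) [Group G] : LMul.Structure G :=
  { funMap := fun _ xs => (List.ofFn xs).prod, RelMap := fun _ _ => False }

/-! ## Class at most one -/

theorem not_of_subsingleton (G : Type) [Group G] [Subsingleton G] : ¬ Bi.BiInterpNat G := by
  letI := Bi.grpStr G
  letI := Bi.natStr
  intro h
  obtain ⟨k, D, f, m, E, g, hf, -⟩ : Bi.BiInterp Bi.Lgrp Bi.Lnat G ℕ := h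
  obtain ⟨a, -, ha⟩ := hf.surj 0
  obtain ⟨b, -, hb⟩ := hf.surj 1
  have : a = b := funext fun i => Subsingleton.elim _ _
  subst this
  exact zero_ne_one (ha.symm.trans hb)

theorem not_trivial (n : ℕ) : ¬ Bi.BiInterpNat (S n 0) := by
  have hsub : Subsingleton (S n 0) := by
    have : derivedSeries (FreeGroup (Fin n)) 0 = ⊤ := derivedSeries_zero _
    refine ⟨fun a b => ?_⟩
    obtain ⟨x, rfl⟩ := QuotientGroup.mk_surjective a
    obtain ⟨y, rfl⟩ := QuotientGroup.mk_surjective b
    rw [QuotientGroup.eq, this]
    trivial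
  exact not_of_subsingleton _

/-- The exponent sums. -/
noncomputable def expo (n : ℕ) : S n 1 →* Multiplicative (Fin n → ℤ) :=
  QuotientGroup.lift (derivedSeries (FreeGroup (Fin n)) 1)
    (FreeGroup.lift fun i => Multiplicative.ofAdd (Pi.single i (1 : ℤ)))
    (by
      intro x hx
      rw [derivedSeries_one] at hx
      exact Abelianization.commutator_subset_ker _ hx)

theorem expo_gen (n : ℕ) (i : Fin n) :
    expo n (QuotientGroup.mk (FreeGroup.of i)) = Multiplicative.ofAdd (Pi.single i (1 : ℤ)) := by
  change FreeGroup.lift (fun i => Multiplicative.ofAdd (Pi.single i (1 : ℤ))) (FreeGroup.of i) = _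
  simp

open scoped commutatorElement in
theorem comm1 (n : ℕ) (a b : S n 1) : a * b = b * a := by
  obtain ⟨x, rfl⟩ := QuotientGroup.mk_surjective a
  obtain ⟨y, rfl⟩ := QuotientGroup.mk_surjective b
  rw [← QuotientGroup.mk_mul, ← QuotientGroup.mk_mul, QuotientGroup.eq, derivedSeries_one]
  have : (x * y)⁻¹ * (y * x) = ⁅y⁻¹, x⁻¹⁆ := by
    rw [commutatorElement_def]; group
  rw [this]
  exact Subgroup.commutator_mem_commutator (Subgroup.mem_top _) (Subgroup.mem_top _)

/-- The element with given exponent sums. -/
noncomputable def bk (n : ℕ) (v : Fin n → ℤ) : S n 1 :=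
  (List.ofFn fun i => (QuotientGroup.mk (FreeGroup.of i) : S n 1) ^ v i).prod

theorem expo_bk (n : ℕ) (v : Fin n → ℤ) : expo n (bk n v) = Multiplicative.ofAdd v := by
  unfold bk
  rw [map_list_prod, List.map_ofFn, List.prod_ofFn]
  apply Multiplicative.toAdd.injective
  rw [toAdd_prod]
  simp only [Function.comp, map_zpow, expo_gen, toAdd_zpow, toAdd_ofAdd]
  funext j
  rw [Finset.sum_apply]
  simp [Pi.single_apply]

theorem bk_expo (n : ℕ) (a : S n 1) : bk n (Multiplicative.toAdd (expo n a)) = a := by
  letI : CommGroup (S n 1) := { (inferInstance : Group (S n 1)) with mul_comm := comm1 n }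
  let φ : Multiplicative (Fin n → ℤ) →* S n 1 :=
    { toFun := fun v => bk n (Multiplicative.toAdd v)
      map_one' := by
        change bk n 0 = 1
        unfold bk
        rw [List.prod_ofFn]
        exact Finset.prod_eq_one fun i _ => zpow_zero _
      map_mul' := fun v w => by
        simp only [bk, toAdd_mul, Pi.add_apply, zpow_add, List.prod_ofFn, Finset.prod_mul_distrib] }
  have h : (φ.comp (expo n)).comp (QuotientGroup.mk' _) = QuotientGroup.mk' _ := by
    apply FreeGroup.ext_hom
    intro i
    change bk n (Multiplicative.toAdd (expo n (QuotientGroup.mk (FreeGroup.of i)))) =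
      QuotientGroup.mk (FreeGroup.of i)
    rw [expo_gen, toAdd_ofAdd]
    simp only [bk, List.prod_ofFn]
    rw [Finset.prod_eq_single i]
    · rw [Pi.single_eq_same]
      exact zpow_one _
    · intro j _ hj
      rw [Pi.single_eq_of_ne hj, zpow_zero]
    · intro hi
      exact absurd (Finset.mem_univ i) hi
  obtain ⟨x, rfl⟩ := QuotientGroup.mk_surjective a
  exact DFunLike.congr_fun h x

theorem not_abelian (n : ℕ) (hn : 2 ≤ n) : ¬ Bi.BiInterpNat (S n 1) := by
  classical
  let i0 : Fin n := ⟨0, by omega⟩
  let i1 : Fin n := ⟨1, by omega⟩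
  let p : S n 1 →* Multiplicative ℤ :=
    (AddMonoidHom.toMultiplicative (Pi.evalAddMonoidHom (fun _ : Fin n => ℤ) i0)).comp (expo n)
  let q : S n 1 →* Multiplicative ({i : Fin n // i ≠ i0} → ℤ) :=
    (AddMonoidHom.toMultiplicative
      (AddMonoidHom.pi fun i : {i : Fin n // i ≠ i0} =>
        Pi.evalAddMonoidHom (fun _ : Fin n => ℤ) i.1)).comp (expo n)
  have hp : ∀ g, Multiplicative.toAdd (p g) = Multiplicative.toAdd (expo n g) i0 := fun _ => rfl
  have hq : ∀ g i, Multiplicative.toAdd (q g) i = Multiplicative.toAdd (expo n g) i.1 :=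
    fun _ _ => rfl
  haveI : Nonempty {i : Fin n // i ≠ i0} := ⟨⟨i1, by simp [i0, i1, Fin.ext_iff]⟩⟩
  haveI : Infinite (Multiplicative ({i : Fin n // i ≠ i0} → ℤ)) :=
    (inferInstance : Infinite ({i : Fin n // i ≠ i0} → ℤ))
  haveI : Infinite (Multiplicative ℤ) := (inferInstance : Infinite ℤ)
  refine Prd.not_biInterpNat (p := p) (q := q) ?_ ?_
  · intro a b
    refine ⟨bk n fun i => if h : i = i0 then Multiplicative.toAdd a else
      Multiplicative.toAdd b ⟨i, h⟩, ?_, ?_⟩
    · apply Multiplicative.toAdd.injective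
      rw [hp, expo_bk, toAdd_ofAdd]
      simp
    · apply Multiplicative.toAdd.injective
      funext i
      rw [hq, expo_bk, toAdd_ofAdd]
      simp [i.2]
  · intro g g' h1 h2
    rw [← bk_expo n g, ← bk_expo n g']
    congr 1
    funext i
    by_cases h : i = i0
    · rw [h, ← hp, ← hp, h1]
    · rw [← hq g ⟨i, h⟩, ← hq g' ⟨i, h⟩, h2]

/-- **Main result.** Let `n ≥ 2`.

(1) The free solvable group `F_n / F_n^{(d)}` of class `d` and rank `n`, in the language of groups,
is bi-interpretable with `(ℕ; +, ·, 0, 1)` if and only if `d ≥ 2`.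

(2) For `d ≥ 2` there is a first-order formula `φ(x_1, …, x_n)` about the multiplication such that
in every finitely generated group `Γ` the tuples which satisfy `φ` are the images of the free
generators under the isomorphisms from `F_n / F_n^{(d)}` onto `Γ`. -/
theorem result (n : ℕ) (hn : 2 ≤ n) :
    (∀ d : ℕ, Bi.BiInterpNat (S n d) ↔ 2 ≤ d) ∧
    ∀ d : ℕ, 2 ≤ d → ∃ φ : LMul.Formula (Fin n), ∀ (Γ : Type) [Group Γ], Group.FG Γ →
      ∀ y : Fin n → Γ,
        ((letI := mulStr Γ; φ.Realize y) ↔
          ∃ e : S n d ≃* Γ, ∀ i, e (gen n d i) = y i) := by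
  refine ⟨fun d => ?_, fun d hd => ?_⟩
  · rcases d with _ | _ | d
    · exact ⟨fun h => absurd h (not_trivial n), fun h => by omega⟩
    · exact ⟨fun h => absurd h (not_abelian n hn), fun h => by omega⟩
    · exact ⟨fun _ => by omega, fun _ => biAll n d hn⟩
  · exact key4 n d hn hd

end Pool.Agent.Results.MP_9cc2ee_lc.AllClasses
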